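import Mathlib
import Pool.Agent.Lib.MP_b6d645_co.Main
import Pool.Agent.Lib.MP_b6d645_co.Numeric

set_option autoImplicit false

/-!
# A connected very well-covered graph whose independence polynomial is not unimodal

The graph has `4326` vertices: it is the corona (one pendant vertex at each vertex) of the join of
`663` isolated vertices with `150` disjoint copies of `K_10`.  Its independence number is `2163` and
its numbers `s_k` of stable sets satisfy `s_1160 > s_1161` and `s_1170 < s_1171`.
-/

namespace Pool.Agent.Results.MP_b6d645_co.ConnectedCounterexample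

open Pool.Agent.Lib.MP_b6d645_co

/-- A stable set of `G`: a set of pairwise non-adjacent vertices. -/
def IsStable {V : Type} (G : SimpleGraph V) (s : Finset V) : Prop :=
  ∀ u ∈ s, ∀ v ∈ s, ¬ G.Adj u v

/-- A maximal stable set of `G`: a stable set that is contained in no other stable set. -/
def IsMaximalStable {V : Type} (G : SimpleGraph V) (s : Finset V) : Prop :=
  IsStable G s ∧ ∀ t : Finset V, IsStable G t → s ⊆ t → t = s

/-- `a` is the largest size of a stable set of `G`, i.e. `a = α(G)`. -/
def IsStabilityNumber {V : Type} (G : SimpleGraph V) (a : ℕ) : Prop :=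
  IsGreatest {k : ℕ | ∃ s : Finset V, IsStable G s ∧ s.card = k} a

open Classical in
/-- The number `s_k` of the stable sets of size `k`. -/
noncomputable def stableCount {V : Type} [Fintype V] (G : SimpleGraph V) (k : ℕ) : ℕ :=
  (Finset.univ.filter (fun s : Finset V => IsStable G s ∧ s.card = k)).card

/-- `G` is very well-covered: each maximal stable set has `α(G)` vertices, there is no isolated
vertex, and `G` has exactly `2 α(G)` vertices. -/
def VeryWellCovered {V : Type} [Fintype V] (G : SimpleGraph V) : Prop :=
  ∃ a : ℕ, IsStabilityNumber G a ∧ (∀ s : Finset V, IsMaximalStable G s → s.card = a) ∧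
    (∀ v : V, ∃ w : V, G.Adj v w) ∧ Fintype.card V = 2 * a

/-- The finite sequence `s 0, s 1, ..., s a` is unimodal. -/
def Unimodal (s : ℕ → ℕ) (a : ℕ) : Prop :=
  ∃ m : ℕ, m ≤ a ∧ (∀ i : ℕ, i < m → s i ≤ s (i + 1)) ∧
    (∀ i : ℕ, m ≤ i → i < a → s (i + 1) ≤ s i)

theorem stable_iff {V : Type} (G : SimpleGraph V) (s : Finset V) :
    IsStable G s ↔ G.IsIndepSet (s : Set V) := by
  constructor
  · intro h u hu v hv _
    exact h u hu v hv
  · intro h u hu v hv huv
    exact h hu hv (fun e => G.ne_of_adj huv e) huv

theorem maximal_iff {V : Type} (G : SimpleGraph V) (s : Finset V) (h : IsMaximalStable G s) :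
    Maximal (fun t : Finset V => G.IsIndepSet (t : Set V)) s := by
  refine ⟨(stable_iff G s).1 h.1, fun t ht hst => ?_⟩
  exact (h.2 t ((stable_iff G t).2 ht) hst).le

theorem count_eq {V : Type} [Fintype V] (G : SimpleGraph V) (k : ℕ) :
    stableCount G k = cnt G k := by
  classical
  unfold stableCount cnt
  rw [← Set.ncard_coe_finset]
  congr 1
  ext s
  simp [stable_iff]

/-- Every graph has a stability number. -/
theorem exists_stability {V : Type} [Fintype V] (G : SimpleGraph V) :
    ∃ a, IsStabilityNumber G a := by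
  classical
  have hfin : {k : ℕ | ∃ s : Finset V, IsStable G s ∧ s.card = k}.Finite := by
    refine (Set.finite_Iic (Fintype.card V)).subset ?_
    rintro k ⟨s, -, rfl⟩
    exact Finset.card_le_univ s
  have hne : {k : ℕ | ∃ s : Finset V, IsStable G s ∧ s.card = k}.Nonempty :=
    ⟨0, ∅, by intro u hu; simp at hu, rfl⟩
  obtain ⟨a, ha, hmax⟩ := hfin.exists_maximal hne
  refine ⟨a, ha, fun k hk => ?_⟩
  rcases le_total k a with h | h
  · exact h
  · exact hmax hk h

/-- A largest stable set is maximal. -/
theorem maximal_of_card {V : Type} [Fintype V] (G : SimpleGraph V) {a : ℕ}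
    (ha : IsStabilityNumber G a) (s : Finset V) (hs : IsStable G s) (hsa : s.card = a) :
    IsMaximalStable G s := by
  refine ⟨hs, fun t ht hst => ?_⟩
  have : t.card ≤ a := ha.2 ⟨t, ht, rfl⟩
  exact (Finset.eq_of_subset_of_card_le hst (by omega)).symm

theorem jgraph_connected (t m a : ℕ) (ht : 1 ≤ t) (hm : 1 ≤ m) (ha : 1 ≤ a) :
    (jgraph t m a).Connected := by
  have hx : ∀ (u : Fin t) (p : Fin m × Fin a), (jgraph t m a).Adj (Sum.inl u) (Sum.inr p) :=
    fun _ _ => trivial
  let u0 : Fin t := ⟨0, ht⟩
  let p0 : Fin m × Fin a := (⟨0, hm⟩, ⟨0, ha⟩)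
  have : Nonempty (Fin t ⊕ (Fin m × Fin a)) := ⟨Sum.inl u0⟩
  refine SimpleGraph.Connected.mk ?_
  have hall : ∀ x, (jgraph t m a).Reachable x (Sum.inl u0) := by
    rintro (u | p)
    · exact ((hx u p0).reachable).trans (hx u0 p0).symm.reachable
    · exact (hx u0 p).symm.reachable
  intro x y
  exact (hall x).trans (hall y).symm

theorem corona_connected {W : Type} (G : SimpleGraph W) (h : G.Connected) :
    (corona G).Connected := by
  obtain ⟨w0⟩ := h.nonempty
  have hl : ∀ u v : W, (corona G).Reachable (Sum.inl u) (Sum.inl v) := by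
    intro u v
    let f : G →g corona G := ⟨Sum.inl, fun {a b} hab => hab⟩
    exact (h.preconnected u v).map f
  have hr : ∀ x : W ⊕ W, (corona G).Reachable x (Sum.inl w0) := by
    rintro (u | u)
    · exact hl u w0
    · have h1 : (corona G).Adj (Sum.inr u) (Sum.inl u) := rfl
      exact h1.reachable.trans (hl u w0)
  have : Nonempty (W ⊕ W) := ⟨Sum.inl w0⟩
  exact SimpleGraph.Connected.mk fun x y => (hr x).trans (hr y).symm

/-- There is a connected very well-covered graph on `4326` vertices, with stability number `2163`,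
such that `s_1160 > s_1161` and `s_1170 < s_1171`; so its independence polynomial is not
unimodal. -/
theorem result :
    ∃ G : SimpleGraph (Fin 4326), G.Connected ∧ VeryWellCovered G ∧ IsStabilityNumber G 2163 ∧
      stableCount G 1161 < stableCount G 1160 ∧ stableCount G 1170 < stableCount G 1171 ∧
      ¬ Unimodal (stableCount G) 2163 := by
  classical
  let W : Type := Fin 663 ⊕ (Fin 150 × Fin 10)
  have hcW : Fintype.card W = 2163 := by
    simp [W]
  have hcard : Fintype.card (W ⊕ W) = 4326 := by
    rw [Fintype.card_sum, hcW]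
  let e : Fin 4326 ≃ (W ⊕ W) := (Fintype.equivFinOfCardEq hcard).symm
  let H : SimpleGraph (W ⊕ W) := corona (jgraph 663 150 10)
  have hmaxH : ∀ s : Finset (W ⊕ W), IsMaximalStable H s → s.card = 2163 := by
    intro s hs
    rw [corona_maximal (jgraph 663 150 10) s (maximal_iff H s hs), hcW]
  let G : SimpleGraph (Fin 4326) := H.comap e
  let iso : G ≃g H := ⟨e, Iff.rfl⟩
  have hst : ∀ s : Finset (Fin 4326), IsStable G s ↔ IsStable H (s.map e.toEmbedding) := by
    intro s
    constructor
    · intro h u hu v hv
      rw [Finset.mem_map_equiv] at hu hv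
      have := h _ hu _ hv
      intro huv
      apply this
      change H.Adj (e (e.symm u)) (e (e.symm v))
      rwa [e.apply_symm_apply, e.apply_symm_apply]
    · intro h u hu v hv huv
      exact h (e u) (Finset.mem_map_of_mem _ hu) (e v) (Finset.mem_map_of_mem _ hv) huv
  have hmaxG : ∀ s : Finset (Fin 4326), IsMaximalStable G s → s.card = 2163 := by
    intro s hs
    have h1 : IsMaximalStable H (s.map e.toEmbedding) := by
      refine ⟨(hst s).1 hs.1, fun t ht hsub => ?_⟩
      have h2 : IsStable G (t.map e.symm.toEmbedding) := by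
        rw [hst]
        have : (t.map e.symm.toEmbedding).map e.toEmbedding = t := by
          ext x; simp
        rwa [this]
      have h3 : s ⊆ t.map e.symm.toEmbedding := by
        intro x hx
        have : e x ∈ t := hsub (Finset.mem_map_of_mem _ hx)
        exact Finset.mem_map.2 ⟨e x, this, by simp⟩
      have h4 := hs.2 _ h2 h3
      rw [← h4]
      ext x; simp
    have h5 := hmaxH _ h1
    rwa [Finset.card_map] at h5
  obtain ⟨a, ha⟩ := exists_stability G
  have haeq : a = 2163 := by
    obtain ⟨s, hs, hsa⟩ := ha.1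
    rw [← hsa]
    exact hmaxG s (maximal_of_card G ha s hs hsa)
  subst haeq
  have hcnt : ∀ k, stableCount G k = (val 663 150 10 (2 ^ 2560) / (2 ^ 2560) ^ k) % (2 ^ 2560) := by
    intro k
    rw [count_eq, cnt_comap e H k]
    exact cnt_val 663 150 10 (2 ^ 2560) (by norm_num) num3 k
  have h1 : stableCount G (1160 + 1) < stableCount G 1160 := by
    rw [hcnt (1160 + 1), hcnt 1160]; exact num1
  have h2 : stableCount G 1170 < stableCount G (1170 + 1) := by
    rw [hcnt 1170, hcnt (1170 + 1)]; exact num2
  refine ⟨G, ?_, ⟨2163, ha, hmaxG, ?_, by simp⟩, ha, h1, h2, ?_⟩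
  · have hc : H.Connected :=
      corona_connected _ (jgraph_connected 663 150 10 (by norm_num) (by norm_num) (by norm_num))
    exact (SimpleGraph.Iso.connected_iff iso).2 hc
  · intro v
    obtain ⟨y, hy⟩ := corona_noisol (jgraph 663 150 10) (e v)
    refine ⟨e.symm y, ?_⟩
    change H.Adj (e v) (e (e.symm y))
    rw [e.apply_symm_apply]
    exact hy
  · rintro ⟨m, -, hm1, hm2⟩
    rcases Nat.lt_or_ge 1160 m with h | h
    · exact absurd (hm1 1160 h) (not_le.2 h1)
    · exact absurd (hm2 1170 (by omega) (by norm_num)) (not_le.2 h2)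

end Pool.Agent.Results.MP_b6d645_co.ConnectedCounterexample
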